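import Pool.Agent.Y199.DM.Nf
import Pool.Agent.Run7.h866.ZP.Master

/-!
Parameters which are near to a given algebraic number at a valuation ring of `ℂ` are near to it for
an embedding of `ℂ` into the algebraic closure of `ℚ_p`, for a large `p` (helper file).
-/

set_option autoImplicit false

namespace Run7.h383.DM

open Polynomial Pool.Agent.H936R2 Pool.Agent.Y199.DM Pool.Agent.Y152.BD
open Pool.Agent.Run7.h866.ZP (Near Hits)

/-- The inverse of a number without large prime factors. -/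
theorem inv_mem (V : ValuationSubring ℂ) (D : ℕ) (hV : ∀ l : ℕ, l ≤ D → ((l : ℂ))⁻¹ ∈ V) (n : ℕ)
    (hn : n ≠ 0) (h : ∀ p : ℕ, p.Prime → p ∣ n → p ≤ D) : ((n : ℂ))⁻¹ ∈ V := by
  induction n using induction_on_primes with
  | zero => exact absurd rfl hn
  | one => simp [V.one_mem]
  | prime_mul p a hp ih =>
    have ha : a ≠ 0 := fun h0 => hn (by rw [h0, mul_zero])
    rw [Nat.cast_mul, mul_inv]
    exact mul_mem (hV p (h p hp (dvd_mul_right p a)))
      (ih ha fun q hq hqa => h q hq (Dvd.dvd.mul_left hqa p))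

theorem aeval_mem (V : ValuationSubring ℂ) (G : ℤ[X]) (u : ℂ) (hu : u ∈ V) : aeval u G ∈ V := by
  rw [aeval_eq_sum_range]
  refine sum_mem fun i _ => ?_
  rw [zsmul_eq_mul]
  exact mul_mem (intCast_mem V _) (pow_mem hu i)

/-- From valuation rings of `ℂ` to embeddings. -/
theorem emb_of_near (s : Finset ℂ) : ∃ W : Finset ℂ, (∀ z ∈ W, IsAlgebraic ℚ z) ∧
    ∀ (K : Subfield ℂ) (t α : ℂ), IsAlgebraic ℚ t → IsAlgebraic ℚ α → t ≠ α →
      Near K (W : Set ℂ) t α → ∃ (p : ℕ) (_ : Fact p.Prime) (τ : ℂ →+* PadicAlgCl p),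
        (∀ x ∈ s, ‖τ x‖ ≤ 1) ∧ ‖τ α - τ t‖ < 1 := by
  classical
  obtain ⟨D, hD⟩ := emb_zero s
  refine ⟨(Finset.range (D + 1)).image fun l : ℕ => ((l : ℂ))⁻¹, ?_, ?_⟩
  · intro z hz
    obtain ⟨l, -, rfl⟩ := Finset.mem_image.1 hz
    exact (isAlgebraic_nat l).inv
  intro K t α ht hα hne hnear
  have hS : AlgebraicIndependent K (Empty.elim : Empty → ℂ) :=
    algebraicIndependent_empty_type_iff.2 (algebraMap K ℂ).injective
  obtain ⟨V, hV1, hVW, -⟩ := hnear Empty _ hS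
  have hVl : ∀ l : ℕ, l ≤ D → ((l : ℂ))⁻¹ ∈ V := by
    intro l hl
    refine hVW _ ?_
    rw [Finset.mem_coe]
    exact Finset.mem_image_of_mem _ (Finset.mem_range.2 (by omega))
  have hu0 : t - α ≠ 0 := sub_ne_zero.2 hne
  have hu : IsAlgebraic ℚ (t - α) := ht.sub hα
  obtain ⟨P, hP0, hPu⟩ := (IsFractionRing.isAlgebraic_iff ℤ ℚ ℂ).mpr hu
  obtain ⟨G, hG, -, hGu⟩ := DegLE.exists_irreducible (d := P.natDegree) (τ := t - α)
    ⟨P, hP0, le_rfl, hPu⟩
  have h2 : ((G.coeff 0 : ℤ) : ℂ) = -((t - α) * aeval (t - α) G.divX) := by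
    have h3 : aeval (t - α) (G.divX * X + C (G.coeff 0)) = 0 := by
      rw [divX_mul_X_add]
      exact hGu
    rw [map_add, map_mul, aeval_X, aeval_C] at h3
    have h4 : algebraMap ℤ ℂ (G.coeff 0) = ((G.coeff 0 : ℤ) : ℂ) := rfl
    rw [h4] at h3
    linear_combination h3
  have hG0 : G.coeff 0 ≠ 0 := by
    intro h0
    have h3 : X ∣ G := X_dvd_iff.2 h0
    obtain ⟨q, hq⟩ := h3
    rcases hG.isUnit_or_isUnit hq with h4 | h4
    · exact not_isUnit_X h4
    · have h5 : aeval (t - α) q ≠ 0 := (h4.map (aeval (R := ℤ) (t - α))).ne_zero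
      rw [hq, map_mul, aeval_X] at hGu
      exact (mul_ne_zero hu0 h5) hGu
  by_cases hp : ∃ p : ℕ, p.Prime ∧ D < p ∧ (p : ℤ) ∣ G.coeff 0
  · obtain ⟨p, hp, hlt, hdvd⟩ := hp
    haveI : Fact p.Prime := ⟨hp⟩
    obtain ⟨τ, hτ1, hτ2⟩ := hD p hlt (t - α) G hG hGu hdvd
    refine ⟨p, ⟨hp⟩, τ, hτ1, ?_⟩
    rw [norm_sub_rev, ← map_sub]
    exact hτ2
  · exfalso
    push Not at hp
    have h3 : (((G.coeff 0).natAbs : ℕ) : ℂ)⁻¹ ∈ V := by
      refine inv_mem V D hVl _ (Int.natAbs_ne_zero.2 hG0) fun p hpp hdvd => ?_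
      by_contra hlt
      exact hp p hpp (not_le.1 hlt) (Int.natCast_dvd.2 hdvd)
    have h4 : ((G.coeff 0 : ℤ) : ℂ)⁻¹ ∈ V := by
      rcases Int.natAbs_eq (G.coeff 0) with h5 | h5
      · have h6 : ((G.coeff 0 : ℤ) : ℂ) = (((G.coeff 0).natAbs : ℤ) : ℂ) := congrArg _ h5
        rw [h6, Int.cast_natCast]
        exact h3
      · have h6 : ((G.coeff 0 : ℤ) : ℂ) = ((-((G.coeff 0).natAbs : ℤ) : ℤ) : ℂ) := congrArg _ h5
        rw [h6, Int.cast_neg, Int.cast_natCast, inv_neg]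
        exact neg_mem h3
    have huV : t - α ∈ V := (ValuationSubring.valuation_le_one_iff _ _).1 hV1.le
    have h5 : V.valuation ((G.coeff 0 : ℤ) : ℂ) < 1 := by
      rw [h2, Valuation.map_neg, map_mul]
      exact mul_lt_one_of_lt_of_le hV1
        ((ValuationSubring.valuation_le_one_iff _ _).2 (aeval_mem V _ _ huV))
    have h6 := (ValuationSubring.valuation_le_one_iff _ _).2 h4
    have h7 : ((G.coeff 0 : ℤ) : ℂ) ≠ 0 := Int.cast_ne_zero.2 hG0
    have h8 : V.valuation ((G.coeff 0 : ℤ) : ℂ) * V.valuation ((G.coeff 0 : ℤ) : ℂ)⁻¹ = 1 := by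
      rw [← map_mul, mul_inv_cancel₀ h7, map_one]
    have h9 := mul_lt_one_of_lt_of_le h5 h6
    rw [h8] at h9
    exact lt_irrefl _ h9

/-- All but finitely many elements of `P` are near to an element of `I` for an embedding of `ℂ` into
the algebraic closure of some `ℚ_p` which maps the elements of `s` to integral elements. -/
theorem finite_far (s : Finset ℂ) (P : Set ℂ) (hP : ∀ t ∈ P, IsAlgebraic ℚ t) (I : Finset ℂ)
    (hI : ∀ α ∈ I, IsAlgebraic ℚ α) (K : Subfield ℂ) (h : Hits K P I) :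
    {t : ℂ | t ∈ P ∧ ∀ α ∈ I, ¬ ∃ (p : ℕ) (_ : Fact p.Prime) (τ : ℂ →+* PadicAlgCl p),
      (∀ x ∈ s, ‖τ x‖ ≤ 1) ∧ ‖τ α - τ t‖ < 1}.Finite := by
  classical
  obtain ⟨W, hW, hemb⟩ := emb_of_near s
  refine (I.finite_toSet.union (h W fun z hz => (hW z hz).tower_top K)).subset ?_
  rintro t ⟨ht, hno⟩
  by_cases htI : t ∈ I
  · exact Or.inl htI
  refine Or.inr ⟨ht, fun α hα hnear => hno α hα ?_⟩
  exact hemb K t α (hP t ht) (hI α hα) (fun h => htI (h ▸ hα)) hnear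

end Run7.h383.DM
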