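import Pool.Agent.Results.MP_295d38_ag.AlgebraicPreperiodicMembers
import Pool.Agent.Results.MP_b15c9e_ag.OnePreperiodicMember
import Pool.Agent.Run7.h383.DM.Near

/-!
The dynamical Mordell-Lang conjecture for families with preperiodic members and general sets of
algebraic parameters (helper file).
-/

set_option autoImplicit false

namespace Run7.h383.DM

open Polynomial Pool.Agent.H936R2 Pool.Agent.Y199.DM Pool.Agent.Y152.BD
open Pool.Agent.Run7.h866.ZP (Near Hits)

variable {N : ℕ} {κ : Type}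

section returns

open Pool.Agent.Results.MP_295d38_ag.AlgebraicPreperiodicMembers (member start returns)

/-- The conclusion for the parameter `t`: the orbit is defined, the return set is a finite union of
arithmetic progressions, and it is contained in the return sets of the `α l`. -/
def Good {M : ℕ} (F : Fin (N + 1) → MvPolynomial (Fin (N + 1)) ℂ[X]) (x : Fin (N + 1) → ℂ[X])
    (G : κ → MvPolynomial (Fin (N + 1)) ℂ[X]) (α : Fin M → ℂ) (t : ℂ) : Prop :=
  (∀ n, (pt (member F t))^[n] (start x t) ≠ 0) ∧ IsFiniteUnionOfAP (returns F x G t) ∧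
    ∀ l, returns F x G t ⊆ returns F x G (α l)

/-- Sets of parameters all but finitely many of which are near to each of the `α l`. -/
theorem dml [Finite κ] {d M : ℕ} (F : Fin (N + 1) → MvPolynomial (Fin (N + 1)) ℂ[X])
    (hF : ∀ i, (F i).IsHomogeneous d) (x : Fin (N + 1) → ℂ[X])
    (G : κ → MvPolynomial (Fin (N + 1)) ℂ[X]) (e : κ → ℕ) (hG : ∀ k, (G k).IsHomogeneous (e k))
    (α : Fin M → ℂ) (hα : ∀ l, IsAlgebraic ℚ (α l))
    (hpre : ∀ l, Preperiodic (member F (α l)) (start x (α l)))
    (hR : {n : ℕ | ∀ l, n ∈ returns F x G (α l)}.Finite ∨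
      ∃ l, EventuallyEtale (member F (α l)) (start x (α l)))
    (P : Set ℂ) (hP : ∀ t ∈ P, IsAlgebraic ℚ t) (K : Subfield ℂ) (hits : ∀ l, Hits K P {α l}) :
    {t : ℂ | t ∈ P ∧ ¬ Good F x G α t}.Finite := by
  classical
  choose s hs using fun l => Pool.Agent.Results.MP_295d38_ag.AlgebraicPreperiodicMembers.near F hF x
    G e hG (α l) (hpre l)
  have hM : Nonempty (Fin M) := by
    rcases hR with h | ⟨l, -⟩
    · by_contra hM
      rw [not_nonempty_iff] at hM
      have : {n : ℕ | ∀ l, n ∈ returns F x G (α l)} = Set.univ := by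
        ext n
        simp
      rw [this] at h
      exact Set.infinite_univ h
    · exact ⟨l⟩
  refine (Set.finite_iUnion fun l : Fin M => finite_far (s l) P hP {α l}
    (by simpa using hα l) K (hits l)).subset ?_
  rintro t ⟨ht, hbad⟩
  by_contra hcon
  apply hbad
  have key : ∀ l, (∀ n, (pt (member F t))^[n] (start x t) ≠ 0) ∧
        returns F x G t ⊆ returns F x G (α l) ∧
        (EventuallyEtale (member F (α l)) (start x (α l)) →
          IsFiniteUnionOfAP (returns F x G t)) := by
    intro l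
    have h1 : ∃ (p : ℕ) (_ : Fact p.Prime) (τ : ℂ →+* PadicAlgCl p),
        (∀ x ∈ s l, ‖τ x‖ ≤ 1) ∧ ‖τ (α l) - τ t‖ < 1 := by
      by_contra h
      refine hcon (Set.mem_iUnion.2 ⟨l, ht, fun β hβ => ?_⟩)
      rw [Finset.mem_singleton.1 hβ]
      exact h
    obtain ⟨p, hp, τ, hτ, hτα⟩ := h1
    exact hs l p τ hτ t hτα
  refine ⟨(key hM.some).1, ?_, fun l => (key l).2.1⟩
  rcases hR with hfin | ⟨l, het⟩
  · exact isFiniteUnionOfAP_of_finite (hfin.subset fun n hn l => (key l).2.1 hn)
  · exact (key l).2.2 het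

end returns

section etale

open Pool.Agent.Results.MP_b15c9e_ag.OnePreperiodicMember (member start)

/-- All closed sets simultaneously, for étale preperiodic members. -/
theorem dmlAt {d : ℕ} (F : Fin (N + 1) → MvPolynomial (Fin (N + 1)) ℂ[X])
    (hF : ∀ i, (F i).IsHomogeneous d) (x : Fin (N + 1) → ℂ[X]) (I : Finset ℂ)
    (hI : ∀ α ∈ I, IsAlgebraic ℚ α ∧ EtalePreperiodic (member F α) (start x α))
    (P : Set ℂ) (hP : ∀ t ∈ P, IsAlgebraic ℚ t) (K : Subfield ℂ) (hits : Hits K P I) :
    {t : ℂ | t ∈ P ∧ ¬ DMLAt (member F t) (start x t)}.Finite := by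
  classical
  have hfinq : {q : Fin (N + 1) × (Fin (N + 1) →₀ ℕ) | (F q.1).coeff q.2 ≠ 0}.Finite := by
    refine (Finset.finite_toSet (Finset.univ.biUnion fun i : Fin (N + 1) =>
      (F i).support.image fun κ => (i, κ))).subset ?_
    rintro ⟨i, κ⟩ hq
    rw [Finset.mem_coe, Finset.mem_biUnion]
    exact ⟨i, Finset.mem_univ _, Finset.mem_image.2
      ⟨κ, MvPolynomial.mem_support_iff.2 hq, rfl⟩⟩
  choose! s hs using fun (α : ℂ) (hα : α ∈ I) => near_core (d := d) (member F) (start x)
    (fun i κ => (F i).coeff κ) x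
    (fun t i κ => by
      rw [member, MvPolynomial.coeff_map]
      rfl) (fun t i => rfl) hfinq (fun t i => (hF i).map _) α (hI α hα).2
  let s' : Finset ℂ := I.biUnion s ∪ I
  refine (finite_far s' P hP I (fun α hα => (hI α hα).1) K hits).subset ?_
  rintro t ⟨ht, hbad⟩
  refine ⟨ht, fun α hα hex => hbad ?_⟩
  obtain ⟨p, hp, τ, hτ, hτα⟩ := hex
  have hαn : ‖τ α‖ ≤ 1 := hτ α (Finset.mem_union_right _ hα)
  refine hs α hα p τ (fun y hy => hτ y (Finset.mem_union_left _ (Finset.mem_biUnion.2
    ⟨α, hα, hy⟩))) t ?_ hτα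
  have h1 : τ t = (τ t - τ α) + τ α := by ring
  rw [h1]
  refine (IsUltrametricDist.norm_add_le_max _ _).trans (max_le ?_ hαn)
  rw [norm_sub_rev]
  exact hτα.le

end etale

end Run7.h383.DM
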